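import Pool.Agent.H336Sel.Growth

/-!
# Finite order
-/

open MeasureTheory Set Filter Topology Complex

namespace H336Sel

lemma Gamma_le_exp {x : ℝ} (hx : 1 ≤ x) : Real.Gamma x ≤ Real.exp ((x + 1) ^ 2) := by
  set n := ⌈x⌉₊ with hn
  have h1 : x ≤ n := Nat.le_ceil x
  have h2 : (n:ℝ) < x + 1 := Nat.ceil_lt_add_one (by linarith)
  have h3 : Real.Gamma x ≤ max (Real.Gamma 1) (Real.Gamma (n + 1)) :=
    Real.convexOn_Gamma.le_max_of_mem_Icc (by norm_num [mem_Ioi]) (by
      show (0:ℝ) < n + 1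
      linarith) ⟨hx, by linarith⟩
  rw [Real.Gamma_one, Real.Gamma_nat_eq_factorial] at h3
  have h4 : (1:ℝ) ≤ (n.factorial : ℝ) := by exact_mod_cast Nat.one_le_iff_ne_zero.2 n.factorial_ne_zero
  rw [max_eq_right h4] at h3
  have h5 : (n.factorial : ℝ) ≤ (n:ℝ) ^ n := by exact_mod_cast n.factorial_le_pow
  have h6 : (n:ℝ) ^ n ≤ (Real.exp n) ^ n := by
    apply pow_le_pow_left₀ (Nat.cast_nonneg n)
    linarith [Real.add_one_le_exp (n:ℝ)]
  rw [← Real.exp_nat_mul] at h6
  refine h3.trans (h5.trans (h6.trans ?_))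
  apply Real.exp_le_exp.2
  have h0 : (0:ℝ) ≤ n := Nat.cast_nonneg n
  nlinarith

variable {k : ℝ} (D : Data k)

lemma Data.E_right' (hk : 0 < k) {z : ℂ} (hz : k + 1 ≤ z.re) :
    ‖D.E z‖ ≤ (10:ℝ) ^ z.re * ∑' n : ℕ, |D.a n| / (n:ℝ) ^ ((k+1)/k) := by
  refine (D.E_right hk (by linarith)).trans ?_
  rw [← tsum_mul_left]
  apply Summable.tsum_le_tsum _ (D.norm_sum hk (by linarith))
  · exact (D.hl _ (by rw [lt_div_iff₀ hk]; linarith)).mul_left _
  · intro n
    rcases eq_or_ne n 0 with rfl | hn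
    · simp [D.a0]
    have hn1 : (1:ℝ) ≤ n := by exact_mod_cast Nat.one_le_iff_ne_zero.2 hn
    have e : (frq k n) ^ z.re = (1/10:ℝ) ^ z.re * (n:ℝ) ^ (z.re / k) := by
      unfold frq
      rw [Real.mul_rpow (by norm_num) (by positivity), ← Real.rpow_mul (by positivity)]
      rw [show 1 / k * z.re = z.re / k by ring]
    rw [e]
    have e2 : (1/10:ℝ) ^ z.re = ((10:ℝ) ^ z.re)⁻¹ := by
      rw [one_div, Real.inv_rpow (by norm_num)]
    rw [e2]
    have h10 : 0 < (10:ℝ) ^ z.re := by positivity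
    have h3 : (n:ℝ) ^ ((k+1)/k) ≤ (n:ℝ) ^ (z.re / k) :=
      Real.rpow_le_rpow_of_exponent_le hn1 (by gcongr)
    have h4 : 0 < (n:ℝ) ^ ((k+1)/k) := by positivity
    calc |D.a n| / (((10:ℝ) ^ z.re)⁻¹ * (n:ℝ) ^ (z.re / k)) = (10:ℝ) ^ z.re * (|D.a n| / (n:ℝ) ^ (z.re / k)) := by
          field_simp
      _ ≤ (10:ℝ) ^ z.re * (|D.a n| / (n:ℝ) ^ ((k+1)/k)) := by gcongr

/-- `E` has finite order. -/
theorem Data.E_order (hk : 0 < k) : ∃ C : ℝ, 0 ≤ C ∧ ∀ z : ℂ, ‖D.E z‖ ≤ Real.exp (C * (1 + ‖z‖) ^ 2) := by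
  obtain ⟨C₁, M, h₁⟩ := D.E_strip hk (-1) (k+1)
  set S := ∑' n : ℕ, |D.a n| / (n:ℝ) ^ ((k+1)/k) with hS
  have hS0 : 0 ≤ S := tsum_nonneg fun n => by positivity
  have hlog : 0 ≤ Real.log 10 := Real.log_nonneg (by norm_num)
  have h10 : ∀ x : ℝ, (10:ℝ) ^ x = Real.exp (Real.log 10 * x) := fun x => by
    rw [Real.rpow_def_of_pos (by norm_num)]
  have hSe : S ≤ Real.exp S := by linarith [Real.add_one_le_exp S]
  refine ⟨|C₁| + |M| + S + Real.log 10 * (k + 1) + (k + 3) ^ 2 + 9 + 4, by positivity, fun z => ?_⟩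
  have hn := norm_nonneg z
  have hre : |z.re| ≤ ‖z‖ := Complex.abs_re_le_norm z
  have him : |z.im| ≤ ‖z‖ := Complex.abs_im_le_norm z
  have hsq : 1 ≤ (1 + ‖z‖) ^ 2 := by nlinarith
  have hsq1 : 1 + ‖z‖ ≤ (1 + ‖z‖) ^ 2 := by nlinarith
  have hC0 := abs_nonneg C₁
  have hM0 := abs_nonneg M
  rcases lt_or_ge z.re (-1) with hz | hz
  · -- left
    have hre2 : ((k:ℂ) - z).re = k - z.re := by simp
    have h1 : D.Λ z = - D.Λ (k - z) := by rw [D.Λ_feq hk]; ring
    have h2 := D.E_right' hk (z := k - z) (by rw [hre2]; linarith)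
    rw [hre2] at h2
    have hne : Complex.Gamma (k - z) ≠ 0 := Complex.Gamma_ne_zero_of_re_pos (by rw [hre2]; linarith)
    have h3 : D.Λ (k - z) = D.E (k - z) * Complex.Gamma (k - z) := by
      unfold Data.E; field_simp
    have h4 : ‖Complex.Gamma (k - z)‖ ≤ Real.exp ((k - z.re + 1) ^ 2) := by
      have := norm_Gamma_le (z := k - z) (by rw [hre2]; linarith)
      rw [hre2] at this
      exact this.trans (Gamma_le_exp (by linarith))
    have h5 : ‖(Complex.Gamma z)⁻¹‖ ≤ Real.exp ((2 - z.re) ^ 2) * Real.exp (Real.pi * |z.im|) := by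
      refine (inv_Gamma_le (by linarith : z.re ≤ 0)).trans ?_
      apply mul_le_mul_of_nonneg_right _ (Real.exp_pos _).le
      have := Gamma_le_exp (x := 1 - z.re) (by linarith)
      refine this.trans (Real.exp_le_exp.2 (le_of_eq (by ring)))
    have h6 : ‖D.E z‖ = ‖D.E (k - z)‖ * (‖Complex.Gamma (k - z)‖ * ‖(Complex.Gamma z)⁻¹‖) := by
      rw [show D.E z = D.Λ z * (Complex.Gamma z)⁻¹ from rfl, h1, h3, norm_mul, norm_neg, norm_mul]
      ring
    rw [h6]
    have hx : -z.re ≤ ‖z‖ := (neg_le_abs _).trans hre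
    calc ‖D.E (k - z)‖ * (‖Complex.Gamma (k - z)‖ * ‖(Complex.Gamma z)⁻¹‖)
        ≤ (Real.exp (Real.log 10 * (k - z.re)) * Real.exp S) *
          (Real.exp ((k - z.re + 1) ^ 2) * (Real.exp ((2 - z.re) ^ 2) * Real.exp (Real.pi * |z.im|))) := by
          apply mul_le_mul _ _ (by positivity) (by positivity)
          · rw [h10] at h2
            exact h2.trans (mul_le_mul_of_nonneg_left hSe (Real.exp_pos _).le)
          · exact mul_le_mul h4 h5 (norm_nonneg _) (Real.exp_pos _).le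
      _ = Real.exp (Real.log 10 * (k - z.re) + S + ((k - z.re + 1) ^ 2 + ((2 - z.re) ^ 2 + Real.pi * |z.im|))) := by
          rw [← Real.exp_add, ← Real.exp_add, ← Real.exp_add, ← Real.exp_add]
      _ ≤ _ := by
          apply Real.exp_le_exp.2
          have a1 : Real.log 10 * (k - z.re) ≤ Real.log 10 * (k + 1) * (1 + ‖z‖) ^ 2 := by
            rw [mul_assoc]
            apply mul_le_mul_of_nonneg_left _ hlog
            nlinarith
          have a2 : S ≤ S * (1 + ‖z‖) ^ 2 := le_mul_of_one_le_right hS0 hsq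
          have a3 : (k - z.re + 1) ^ 2 ≤ (k + 3) ^ 2 * (1 + ‖z‖) ^ 2 := by
            rw [← mul_pow]
            apply pow_le_pow_left₀ (by linarith)
            nlinarith
          have a4 : (2 - z.re) ^ 2 ≤ 9 * (1 + ‖z‖) ^ 2 := by
            have : (9:ℝ) = 3 ^ 2 := by norm_num
            rw [this, ← mul_pow]
            apply pow_le_pow_left₀ (by linarith)
            nlinarith
          have a5 : Real.pi * |z.im| ≤ 4 * (1 + ‖z‖) ^ 2 := by
            have := Real.pi_le_four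
            calc Real.pi * |z.im| ≤ 4 * ‖z‖ := by gcongr
              _ ≤ _ := by nlinarith
          have a6 : 0 ≤ |C₁| * (1 + ‖z‖) ^ 2 := by positivity
          have a7 : 0 ≤ |M| * (1 + ‖z‖) ^ 2 := by positivity
          nlinarith
  · rcases le_or_gt z.re (k+1) with hz2 | hz2
    · refine (h₁ z hz hz2).trans ?_
      have b1 : C₁ ≤ Real.exp |C₁| := by
        have := Real.add_one_le_exp |C₁|
        have := le_abs_self C₁
        linarith
      have b2 : (1 + |z.im|) ^ M ≤ Real.exp (|M| * ‖z‖) := by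
        have hpos : 0 < 1 + |z.im| := by positivity
        rw [Real.rpow_def_of_pos hpos]
        apply Real.exp_le_exp.2
        have c1 : Real.log (1 + |z.im|) ≤ |z.im| := by
          have := Real.log_le_sub_one_of_pos hpos
          linarith
        have c0 : 0 ≤ Real.log (1 + |z.im|) := Real.log_nonneg (by linarith [abs_nonneg z.im])
        calc Real.log (1 + |z.im|) * M ≤ Real.log (1 + |z.im|) * |M| :=
              mul_le_mul_of_nonneg_left (le_abs_self _) c0
          _ ≤ ‖z‖ * |M| := mul_le_mul_of_nonneg_right (c1.trans him) (abs_nonneg _)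
          _ = _ := mul_comm _ _
      have b3 : 0 ≤ (1 + |z.im|) ^ M := by positivity
      calc C₁ * (1 + |z.im|) ^ M ≤ Real.exp |C₁| * Real.exp (|M| * ‖z‖) :=
            mul_le_mul b1 b2 b3 (Real.exp_pos _).le
        _ = Real.exp (|C₁| + |M| * ‖z‖) := by rw [Real.exp_add]
        _ ≤ _ := by
            apply Real.exp_le_exp.2
            have a1 : |C₁| ≤ |C₁| * (1 + ‖z‖) ^ 2 := le_mul_of_one_le_right hC0 hsq
            have a2 : |M| * ‖z‖ ≤ |M| * (1 + ‖z‖) ^ 2 := by gcongr; nlinarith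
            have a3 : 0 ≤ (S + Real.log 10 * (k + 1) + (k + 3) ^ 2 + 9 + 4) * (1 + ‖z‖) ^ 2 := by positivity
            nlinarith
    · have h2 := D.E_right' hk (z := z) hz2.le
      rw [h10] at h2
      have hx : z.re ≤ ‖z‖ := (le_abs_self _).trans hre
      calc ‖D.E z‖ ≤ Real.exp (Real.log 10 * z.re) * S := h2
        _ ≤ Real.exp (Real.log 10 * z.re) * Real.exp S := mul_le_mul_of_nonneg_left hSe (Real.exp_pos _).le
        _ = Real.exp (Real.log 10 * z.re + S) := by rw [Real.exp_add]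
        _ ≤ _ := by
            apply Real.exp_le_exp.2
            have a1 : Real.log 10 * z.re ≤ Real.log 10 * (k + 1) * (1 + ‖z‖) ^ 2 := by
              rw [mul_assoc]
              apply mul_le_mul_of_nonneg_left _ hlog
              nlinarith
            have a2 : S ≤ S * (1 + ‖z‖) ^ 2 := le_mul_of_one_le_right hS0 hsq
            have a3 : 0 ≤ (|C₁| + |M| + (k + 3) ^ 2 + 9 + 4) * (1 + ‖z‖) ^ 2 := by positivity
            nlinarith

end H336Sel
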