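import Pool.Agent.H336Sel.Sampling

/-!
# Existence of a linear relation with polynomially bounded coefficients
-/

open MeasureTheory Set

namespace H336Sel

lemma int_exp {k w : ℝ} (hk : 0 < k) (hw : 0 < w) :
    ∫ x in Ioi (0:ℝ), x ^ k * Real.exp (-(w * x)) = Real.Gamma (k+1) * w ^ (-(k+1)) := by
  have := Real.integral_rpow_mul_exp_neg_mul_Ioi (a := k+1) (r := w) (by linarith) hw
  simp only [add_sub_cancel_right] at this
  rw [this, one_div, Real.inv_rpow hw.le, Real.rpow_neg hw.le, mul_comm]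

lemma int_exp_on {k w : ℝ} (hk : 0 < k) (hw : 0 < w) :
    IntegrableOn (fun x : ℝ => x ^ k * Real.exp (-(w * x))) (Ioi 0) := by
  have := integrableOn_rpow_mul_exp_neg_mul_rpow (p := 1) (s := k) (b := w) (by linarith) one_pos hw
  simpa using this

/-- Two-term exponential sums. -/
noncomputable def H (α β u u' x : ℝ) : ℝ := α * Real.exp (-(u * x)) + β * Real.exp (-(u' * x))

lemma H_mul (k α β u u' γ δ v v' x : ℝ) : x ^ k * (H α β u u' x * H γ δ v v' x) =
    (α * γ) * (x ^ k * Real.exp (-((u + v) * x))) + (α * δ) * (x ^ k * Real.exp (-((u + v') * x)))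
    + (β * γ) * (x ^ k * Real.exp (-((u' + v) * x))) + (β * δ) * (x ^ k * Real.exp (-((u' + v') * x))) := by
  unfold H
  have e : ∀ a b : ℝ, Real.exp (-((a + b) * x)) = Real.exp (-(a * x)) * Real.exp (-(b * x)) := by
    intro a b; rw [← Real.exp_add]; congr 1; ring
  rw [e, e, e, e]; ring

lemma H_int_on {k : ℝ} (hk : 0 < k) (α β γ δ : ℝ) {u u' v v' : ℝ} (hu : 0 < u) (hu' : 0 < u')
    (hv : 0 < v) (hv' : 0 < v') :
    IntegrableOn (fun x : ℝ => x ^ k * (H α β u u' x * H γ δ v v' x)) (Ioi 0) := by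
  simp_rw [H_mul]
  exact ((((int_exp_on hk (by positivity)).const_mul _).add
    ((int_exp_on hk (by positivity)).const_mul _)).add
    ((int_exp_on hk (by positivity)).const_mul _)).add
    ((int_exp_on hk (by positivity)).const_mul _)

lemma H_int {k : ℝ} (hk : 0 < k) (α β γ δ : ℝ) {u u' v v' : ℝ} (hu : 0 < u) (hu' : 0 < u')
    (hv : 0 < v) (hv' : 0 < v') :
    ∫ x in Ioi (0:ℝ), x ^ k * (H α β u u' x * H γ δ v v' x) =
      Real.Gamma (k+1) * (α * γ * (u + v) ^ (-(k+1)) + α * δ * (u + v') ^ (-(k+1))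
        + β * γ * (u' + v) ^ (-(k+1)) + β * δ * (u' + v') ^ (-(k+1))) := by
  simp_rw [H_mul]
  have i : ∀ c w : ℝ, 0 < w → Integrable (fun x : ℝ => c * (x ^ k * Real.exp (-(w * x))))
      (volume.restrict (Ioi 0)) := fun c w hw => (int_exp_on hk hw).const_mul _
  rw [integral_add, integral_add, integral_add, integral_const_mul, integral_const_mul,
    integral_const_mul, integral_const_mul, int_exp hk (by positivity), int_exp hk (by positivity),
    int_exp hk (by positivity), int_exp hk (by positivity)]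
  · ring
  · exact i _ _ (by positivity)
  · exact i _ _ (by positivity)
  · exact (i _ _ (by positivity)).add (i _ _ (by positivity))
  · exact i _ _ (by positivity)
  · exact ((i _ _ (by positivity)).add (i _ _ (by positivity))).add (i _ _ (by positivity))
  · exact i _ _ (by positivity)

/-- The self-dual test functions. -/
noncomputable def G (k u x : ℝ) : ℝ := H 1 (u ^ (-k)) u u⁻¹ x

/-- Their derivatives. -/
noncomputable def G' (k u x : ℝ) : ℝ := H (-u) (-(u ^ (-k) * u⁻¹)) u u⁻¹ x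

lemma hasDerivAt_G (k u x : ℝ) : HasDerivAt (G k u) (G' k u x) x := by
  unfold G G' H
  have h : ∀ a c : ℝ, HasDerivAt (fun x : ℝ => c * Real.exp (-(a * x))) (c * (-a) * Real.exp (-(a*x))) x := by
    intro a c
    have h1 : HasDerivAt (fun x : ℝ => -(a * x)) (-(a * 1)) x := ((hasDerivAt_id x).const_mul a).neg
    have h2 := (h1.exp).const_mul c
    convert! h2 using 1
    ring
  have := (h u 1).add (h u⁻¹ (u ^ (-k)))
  convert! this using 1
  ring

lemma continuous_G' (k u : ℝ) : Continuous (G' k u) := by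
  unfold G' H
  fun_prop

lemma GG {k : ℝ} (hk : 0 < k) {u v : ℝ} (hu : 0 < u) (hv : 0 < v) :
    ∫ x in Ioi (0:ℝ), x ^ k * (G' k u x * G' k v x) = ∫ x in Ioi (0:ℝ), x ^ k * (G k u x * G k v x) := by
  unfold G G'
  rw [H_int hk _ _ _ _ hu (inv_pos.2 hu) hv (inv_pos.2 hv),
    H_int hk _ _ _ _ hu (inv_pos.2 hu) hv (inv_pos.2 hv)]
  have e1 : (u⁻¹ + v⁻¹) ^ (-(k+1)) = (u+v) ^ (-(k+1)) * (u ^ k * u * (v ^ k * v)) := by
    have : u⁻¹ + v⁻¹ = (u + v) * (u * v)⁻¹ := by field_simp; ring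
    rw [this, Real.mul_rpow (by positivity) (by positivity), Real.inv_rpow (by positivity),
      ← Real.rpow_neg (by positivity), neg_neg, Real.mul_rpow hu.le hv.le,
      Real.rpow_add_one hu.ne', Real.rpow_add_one hv.ne']
  have e2 : (u + v⁻¹) ^ (-(k+1)) = (u*v+1) ^ (-(k+1)) * (v ^ k * v) := by
    have : u + v⁻¹ = (u * v + 1) * v⁻¹ := by field_simp
    rw [this, Real.mul_rpow (by positivity) (by positivity), Real.inv_rpow (by positivity),
      ← Real.rpow_neg (by positivity), neg_neg, Real.rpow_add_one hv.ne']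
  have e3 : (u⁻¹ + v) ^ (-(k+1)) = (u*v+1) ^ (-(k+1)) * (u ^ k * u) := by
    have : u⁻¹ + v = (u * v + 1) * u⁻¹ := by field_simp; ring
    rw [this, Real.mul_rpow (by positivity) (by positivity), Real.inv_rpow (by positivity),
      ← Real.rpow_neg (by positivity), neg_neg, Real.rpow_add_one hu.ne']
  rw [e1, e2, e3, Real.rpow_neg hu.le k, Real.rpow_neg hv.le k]
  have hu1 : 0 < u ^ k := Real.rpow_pos_of_pos hu _
  have hv1 : 0 < v ^ k := Real.rpow_pos_of_pos hv _
  field_simp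
  ring

/-- Index type. -/
abbrev P := {u : ℝ // 0 < u}

/-- Finite combination. -/
noncomputable def F (k : ℝ) (c : P →₀ ℝ) (x : ℝ) : ℝ := ∑ u ∈ c.support, c u * G k u x

noncomputable def F' (k : ℝ) (c : P →₀ ℝ) (x : ℝ) : ℝ := ∑ u ∈ c.support, c u * G' k u x

lemma hasDerivAt_F (k : ℝ) (c : P →₀ ℝ) (x : ℝ) : HasDerivAt (F k c) (F' k c x) x := by
  unfold F F'
  apply HasDerivAt.fun_sum
  intro u _
  exact (hasDerivAt_G k u x).const_mul _

lemma continuous_F' (k : ℝ) (c : P →₀ ℝ) : Continuous (F' k c) := by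
  unfold F'
  apply continuous_finsetSum
  intro u _
  exact (continuous_G' k u).const_mul _

lemma sq_expand (k : ℝ) (c : P →₀ ℝ) (g : ℝ → ℝ → ℝ) (x : ℝ) :
    x ^ k * (∑ u ∈ c.support, c u * g u x) ^ 2 =
      ∑ u ∈ c.support, ∑ v ∈ c.support, (c u * c v) * (x ^ k * (g u x * g v x)) := by
  rw [sq, Finset.sum_mul_sum, Finset.mul_sum]
  apply Finset.sum_congr rfl
  intro u _
  rw [Finset.mul_sum]
  apply Finset.sum_congr rfl
  intro v _
  ring

lemma int_F {k : ℝ} (hk : 0 < k) (c : P →₀ ℝ) :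
    IntegrableOn (fun x => x ^ k * F k c x ^ 2) (Ioi 0) := by
  unfold F
  simp_rw [sq_expand k c (G k)]
  apply integrable_finsetSum
  intro u _
  apply integrable_finsetSum
  intro v _
  exact (H_int_on hk _ _ _ _ u.2 (inv_pos.2 u.2) v.2 (inv_pos.2 v.2)).const_mul _

lemma int_F' {k : ℝ} (hk : 0 < k) (c : P →₀ ℝ) :
    IntegrableOn (fun x => x ^ k * F' k c x ^ 2) (Ioi 0) := by
  unfold F'
  simp_rw [sq_expand k c (G' k)]
  apply integrable_finsetSum
  intro u _
  apply integrable_finsetSum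
  intro v _
  exact (H_int_on hk _ _ _ _ u.2 (inv_pos.2 u.2) v.2 (inv_pos.2 v.2)).const_mul _

lemma F_eq {k : ℝ} (hk : 0 < k) (c : P →₀ ℝ) :
    ∫ x in Ioi (0:ℝ), x ^ k * F' k c x ^ 2 = ∫ x in Ioi (0:ℝ), x ^ k * F k c x ^ 2 := by
  unfold F F'
  simp_rw [sq_expand k c (G k), sq_expand k c (G' k)]
  rw [integral_finsetSum, integral_finsetSum]
  · apply Finset.sum_congr rfl
    intro u _
    rw [integral_finsetSum, integral_finsetSum]
    · apply Finset.sum_congr rfl
      intro v _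
      rw [integral_const_mul, integral_const_mul, GG hk u.2 v.2]
    · intro v _
      exact (H_int_on hk _ _ _ _ u.2 (inv_pos.2 u.2) v.2 (inv_pos.2 v.2)).const_mul _
    · intro v _
      exact (H_int_on hk _ _ _ _ u.2 (inv_pos.2 u.2) v.2 (inv_pos.2 v.2)).const_mul _
  · intro u _
    apply integrable_finsetSum
    intro v _
    exact (H_int_on hk _ _ _ _ u.2 (inv_pos.2 u.2) v.2 (inv_pos.2 v.2)).const_mul _
  · intro u _
    apply integrable_finsetSum
    intro v _
    exact (H_int_on hk _ _ _ _ u.2 (inv_pos.2 u.2) v.2 (inv_pos.2 v.2)).const_mul _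

/-- `exp (-(u * node))` is summable against polynomials. -/
lemma summable_exp_node {k : ℝ} (hk : 0 < k) {u : ℝ} (hu : 0 < u) :
    Summable fun n : ℕ => ((n:ℝ) + 3) ^ 2 * Real.exp (-(u * node k n)) := by
  have h1 : (fun n : ℕ => Real.exp (-u * node k n)) =O[Filter.atTop] fun n : ℕ => (node k n) ^ (-(4 * k)) :=
    (isLittleO_exp_neg_mul_rpow_atTop hu (-(4*k))).isBigO.comp_tendsto (tendsto_node hk)
  have h2 : (fun n : ℕ => (node k n) ^ (-(4 * k))) =O[Filter.atTop] fun n : ℕ => ((n:ℝ)+2) ^ (-(4:ℝ)) := by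
    apply Asymptotics.IsBigO.of_bound ((1/10 : ℝ) ^ (-(4*k)))
    filter_upwards with n
    unfold node
    rw [Real.mul_rpow (by norm_num) (by positivity), ← Real.rpow_mul (by positivity)]
    have : 1 / k * -(4 * k) = -4 := by field_simp
    rw [this, norm_mul, Real.norm_of_nonneg (by positivity : (0:ℝ) ≤ (1/10 : ℝ) ^ (-(4*k)))]
  have h3 : (fun n : ℕ => ((n:ℝ) + 3) ^ 2) =O[Filter.atTop] fun n : ℕ => ((n:ℝ)+2) ^ (2:ℝ) := by
    apply Asymptotics.IsBigO.of_bound 4
    filter_upwards with n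
    rw [Real.norm_of_nonneg (by positivity), Real.norm_of_nonneg (by positivity), Real.rpow_two]
    have : (0:ℝ) ≤ n := Nat.cast_nonneg n
    nlinarith
  have h4 := h3.mul (h1.trans h2)
  have h5 : Summable fun n : ℕ => ((n:ℝ)+2) ^ (2:ℝ) * ((n:ℝ)+2) ^ (-(4:ℝ)) := by
    have h6 : Summable fun n : ℕ => (((n + 2 : ℕ)):ℝ) ^ (-(2:ℝ)) := by
      apply (summable_nat_add_iff (f := fun n : ℕ => (n:ℝ) ^ (-(2:ℝ))) 2).2
      exact Real.summable_nat_rpow.2 (by norm_num)
    convert! h6 using 2 with n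
    rw [← Real.rpow_add (by positivity)]
    push_cast
    norm_num
  refine summable_of_isBigO_nat h5 ?_
  convert! h4 using 2
  ring_nf

lemma summable_G_node {k : ℝ} (hk : 0 < k) {u : ℝ} (hu : 0 < u) :
    Summable fun n : ℕ => ((n:ℝ) + 3) ^ 2 * G k u (node k n) := by
  unfold G H
  have := (summable_exp_node hk hu).add ((summable_exp_node hk (inv_pos.2 hu)).mul_left (u ^ (-k)))
  refine this.congr ?_
  intro n
  ring

lemma G_nonneg {k u x : ℝ} (hu : 0 < u) : 0 ≤ G k u x := by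
  unfold G H; positivity

lemma G_le {k u : ℝ} (hu : 0 < u) {x : ℝ} (hx : 0 ≤ x) : G k u x ≤ 1 + u ^ (-k) := by
  unfold G H
  have h1 : Real.exp (-(u * x)) ≤ 1 := Real.exp_le_one_iff.2 (by
    have : 0 ≤ u * x := by positivity
    linarith)
  have h2 : Real.exp (-(u⁻¹ * x)) ≤ 1 := Real.exp_le_one_iff.2 (by
    have : 0 ≤ u⁻¹ * x := by positivity
    linarith)
  have h3 : 0 ≤ u ^ (-k) := by positivity
  nlinarith

lemma memℓ2 {k : ℝ} (hk : 0 < k) (u : P) :
    Memℓp (fun n : ℕ => Real.sqrt ((n:ℝ)+3) * G k u (node k n)) 2 := by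
  apply memℓp_gen
  have h := (summable_G_node hk u.2).mul_left (1 + (u:ℝ) ^ (-k))
  refine Summable.of_nonneg_of_le (fun n => by positivity) ?_ h
  intro n
  have e : (2 : ENNReal).toReal = 2 := by norm_num
  rw [e, Real.rpow_two, Real.norm_eq_abs, sq_abs, mul_pow, Real.sq_sqrt (by positivity)]
  have h1 := G_le (k := k) u.2 (node_pos (k := k) n).le
  have h0 := G_nonneg (k := k) (x := node k n) u.2
  have h2 : G k u (node k n) ^ 2 ≤ (1 + (u:ℝ) ^ (-k)) * G k u (node k n) := by nlinarith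
  have h3 : (n:ℝ) + 3 ≤ ((n:ℝ)+3)^2 := by
    have : (0:ℝ) ≤ n := Nat.cast_nonneg n
    nlinarith
  have h4 : 0 ≤ (1 + (u:ℝ) ^ (-k)) * G k u (node k n) := le_trans (sq_nonneg _) h2
  calc ((n:ℝ)+3) * G k u (node k n) ^ 2 ≤ ((n:ℝ)+3)^2 * ((1 + (u:ℝ) ^ (-k)) * G k u (node k n)) := by
        apply mul_le_mul h3 h2 (sq_nonneg _) (by positivity)
    _ = _ := by ring

/-- The vectors. -/
noncomputable def vec {k : ℝ} (hk : 0 < k) (u : P) : lp (fun _ : ℕ => ℝ) 2 := ⟨_, memℓ2 hk u⟩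

noncomputable def T {k : ℝ} (hk : 0 < k) : (P →₀ ℝ) →ₗ[ℝ] lp (fun _ : ℕ => ℝ) 2 :=
  Finsupp.linearCombination ℝ (vec hk)

lemma T_apply {k : ℝ} (hk : 0 < k) (c : P →₀ ℝ) (n : ℕ) :
    T hk c n = Real.sqrt ((n:ℝ)+3) * F k c (node k n) := by
  unfold T F
  rw [Finsupp.linearCombination_apply, Finsupp.sum, lp.coeFn_sum, Finset.sum_apply, Finset.mul_sum]
  apply Finset.sum_congr rfl
  intro u _
  rw [lp.coeFn_smul, Pi.smul_apply, smul_eq_mul]
  show c u * (Real.sqrt ((n:ℝ)+3) * G k u (node k n)) = _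
  ring

lemma T_norm {k : ℝ} (hk : 0 < k) (c : P →₀ ℝ) :
    HasSum (fun n : ℕ => ((n:ℝ)+3) * F k c (node k n) ^ 2) (‖T hk c‖ ^ 2) := by
  have := lp.hasSum_inner (𝕜 := ℝ) (T hk c) (T hk c)
  rw [real_inner_self_eq_norm_sq] at this
  convert! this using 2 with n
  rw [T_apply]
  simp only [RCLike.inner_apply, conj_trivial]
  have : Real.sqrt ((n:ℝ)+3) * Real.sqrt ((n:ℝ)+3) = (n:ℝ)+3 := Real.mul_self_sqrt (by positivity)
  calc ((n:ℝ)+3) * F k c (node k n) ^ 2 = (Real.sqrt ((n:ℝ)+3) * Real.sqrt ((n:ℝ)+3)) * F k c (node k n) ^ 2 := by rw [this]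
    _ = _ := by ring

lemma F_bound {k : ℝ} (hk : 1 ≤ k) (c : P →₀ ℝ) :
    |F k c (1/10)| ≤ Real.sqrt (1 + 4 * (10:ℝ) ^ k) * ‖T (by linarith : 0 < k) c‖ := by
  have hk0 : 0 < k := by linarith
  have h := sampling hk (hasDerivAt_F k c) (continuous_F' k c) (int_F hk0 c) (int_F' hk0 c)
    (F_eq hk0 c) (T_norm hk0 c).summable
  rw [(T_norm hk0 c).tsum_eq] at h
  rw [← Real.sqrt_sq_eq_abs]
  calc Real.sqrt (F k c (1/10) ^ 2) ≤ Real.sqrt ((1 + 4 * (10:ℝ) ^ k) * ‖T hk0 c‖ ^ 2) :=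
        Real.sqrt_le_sqrt h
    _ = _ := by rw [Real.sqrt_mul (by positivity), Real.sqrt_sq (norm_nonneg _)]

/-- General functional-analytic lemma. -/
lemma factor {E X : Type*} [AddCommGroup E] [Module ℝ E] [NormedAddCommGroup X] [InnerProductSpace ℝ X]
    [CompleteSpace X] (T : E →ₗ[ℝ] X) (L : E →ₗ[ℝ] ℝ) (C : ℝ) (h : ∀ c, |L c| ≤ C * ‖T c‖) :
    ∃ b : X, ∀ c, L c = inner ℝ b (T c) := by
  obtain ⟨g, hg⟩ := T.rangeRestrict.exists_rightInverse_of_surjective (LinearMap.range_rangeRestrict T)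
  have hg' : ∀ y : LinearMap.range T, T (g y) = y := by
    intro y
    have := congrArg (fun φ => (φ y : LinearMap.range T)) hg
    simpa using congrArg Subtype.val this
  let φ : LinearMap.range T →ₗ[ℝ] ℝ := L.comp g
  have hφ : ∀ y, ‖φ y‖ ≤ C * ‖y‖ := by
    intro y
    have := h (g y)
    rw [hg'] at this
    exact this
  let ψ : StrongDual ℝ (LinearMap.range T) := φ.mkContinuous C hφ
  obtain ⟨χ, hχ, -⟩ := exists_extension_norm_eq (LinearMap.range T) ψ
  refine ⟨(InnerProductSpace.toDual ℝ X).symm χ, fun c => ?_⟩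
  rw [InnerProductSpace.toDual_symm_apply]
  have h1 : χ (T c) = L (g ⟨T c, c, rfl⟩) := hχ ⟨T c, c, rfl⟩
  rw [h1]
  have h2 := h (c - g ⟨T c, c, rfl⟩)
  rw [map_sub, map_sub, hg', sub_self, norm_zero, mul_zero] at h2
  have h3 := abs_nonpos_iff.1 h2
  linarith

/-- Existence of the relation. -/
theorem exists_relation {k : ℝ} (hk : 1 ≤ k) :
    ∃ b : ℕ → ℝ, (Summable fun n => b n ^ 2) ∧
      ∀ u : ℝ, 0 < u → HasSum (fun n : ℕ => b n * Real.sqrt ((n:ℝ)+3) * G k u (node k n)) (G k u (1/10)) := by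
  have hk0 : 0 < k := by linarith
  let L : (P →₀ ℝ) →ₗ[ℝ] ℝ := Finsupp.linearCombination ℝ (fun u : P => G k u (1/10))
  have hL : ∀ c, L c = F k c (1/10) := by
    intro c
    show Finsupp.linearCombination ℝ (fun u : P => G k u (1/10)) c = _
    rw [Finsupp.linearCombination_apply, Finsupp.sum]
    rfl
  obtain ⟨b, hb⟩ := factor (T hk0) L _ (fun c => by rw [hL]; exact F_bound hk c)
  refine ⟨b, ?_, ?_⟩
  · have := (lp.hasSum_inner (𝕜 := ℝ) b b).summable
    refine this.congr fun n => ?_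
    simp [sq]
  · intro u hu
    have h1 := hb (Finsupp.single ⟨u, hu⟩ 1)
    have h2 : L (Finsupp.single ⟨u, hu⟩ 1) = G k u (1/10) := by
      show Finsupp.linearCombination ℝ (fun u : P => G k u (1/10)) _ = _
      rw [Finsupp.linearCombination_single]; simp
    have h3 : T hk0 (Finsupp.single ⟨u, hu⟩ 1) = vec hk0 ⟨u, hu⟩ := by
      unfold T
      rw [Finsupp.linearCombination_single]; simp
    rw [h2, h3] at h1
    rw [h1]
    have := lp.hasSum_inner (𝕜 := ℝ) b (vec hk0 ⟨u, hu⟩)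
    refine this.congr_fun ?_ 
    intro n
    simp only [RCLike.inner_apply, conj_trivial]
    show _ = (Real.sqrt ((n:ℝ)+3) * G k u (node k n)) * _
    ring

end H336Sel
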