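import Mathlib

/-!
# A sampling inequality for self-dual functions
-/

open MeasureTheory Set intervalIntegral

namespace H336Sel

/-- Gap inequality. -/
lemma gap_ineq {f f' : ℝ → ℝ} (hf : ∀ x, HasDerivAt f (f' x) x) (hf' : Continuous f')
    {a b : ℝ} (hab : a ≤ b) :
    ∫ x in a..b, f x ^ 2 ≤ 2 * (b - a) * f a ^ 2 + 4 * (b - a) ^ 2 * ∫ x in a..b, f' x ^ 2 := by
  rcases eq_or_lt_of_le hab with rfl | hlt
  · simp
  have hfc : Continuous f := continuous_iff_continuousAt.2 fun x => (hf x).continuousAt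
  set δ := b - a with hδ
  have hδ0 : 0 < δ := by rw [hδ]; linarith
  set I0 := ∫ x in a..b, f x ^ 2 with hI0
  set I1 := ∫ x in a..b, f' x ^ 2 with hI1
  -- pointwise bound
  have key : ∀ x ∈ Icc a b, f x ^ 2 ≤ f a ^ 2 + (1 / (2 * δ) * I0 + 2 * δ * I1) := by
    intro x hx
    have h1 : ∫ y in a..x, 2 * f y * f' y = f x ^ 2 - f a ^ 2 := by
      apply integral_eq_sub_of_hasDerivAt (f := fun y => f y ^ 2)
      · intro y _
        have := (hf y).fun_pow 2
        simpa using this
      · exact (Continuous.intervalIntegrable (by fun_prop) _ _)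
    have h2 : ∫ y in a..x, 2 * f y * f' y ≤
        ∫ y in a..x, (1 / (2 * δ) * f y ^ 2 + 2 * δ * f' y ^ 2) := by
      apply integral_mono_on hx.1
      · exact (Continuous.intervalIntegrable (by fun_prop) _ _)
      · exact (Continuous.intervalIntegrable (by fun_prop) _ _)
      · intro y _
        have h3 : 0 ≤ 1 / (2 * δ) * (f y - 2 * δ * f' y) ^ 2 := by positivity
        have h4 : 1 / (2 * δ) * (f y - 2 * δ * f' y) ^ 2 =
            1 / (2 * δ) * f y ^ 2 + 2 * δ * f' y ^ 2 - 2 * f y * f' y := by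
          field_simp
          ring
        linarith
    have h3 : ∫ y in a..x, (1 / (2 * δ) * f y ^ 2 + 2 * δ * f' y ^ 2) ≤
        ∫ y in a..b, (1 / (2 * δ) * f y ^ 2 + 2 * δ * f' y ^ 2) := by
      apply integral_mono_interval le_rfl hx.1 hx.2
      · filter_upwards with y
        show (0:ℝ) ≤ 1 / (2 * δ) * f y ^ 2 + 2 * δ * f' y ^ 2
        positivity
      · exact (Continuous.intervalIntegrable (by fun_prop) _ _)
    have h4 : ∫ y in a..b, (1 / (2 * δ) * f y ^ 2 + 2 * δ * f' y ^ 2) =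
        1 / (2 * δ) * I0 + 2 * δ * I1 := by
      rw [intervalIntegral.integral_add, intervalIntegral.integral_const_mul, intervalIntegral.integral_const_mul]
      · exact (Continuous.intervalIntegrable (by fun_prop) _ _)
      · exact (Continuous.intervalIntegrable (by fun_prop) _ _)
    linarith
  have h5 : I0 ≤ ∫ _x in a..b, (f a ^ 2 + (1 / (2 * δ) * I0 + 2 * δ * I1)) := by
    apply integral_mono_on hab
    · exact (Continuous.intervalIntegrable (by fun_prop) _ _)
    · exact (Continuous.intervalIntegrable (by fun_prop) _ _)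
    · exact key
  rw [intervalIntegral.integral_const, smul_eq_mul, ← hδ] at h5
  have h6 : δ * (f a ^ 2 + (1 / (2 * δ) * I0 + 2 * δ * I1)) = δ * f a ^ 2 + I0 / 2 + 2 * δ ^ 2 * I1 := by
    field_simp
    ring
  rw [h6] at h5
  nlinarith

/-- First interval. -/
lemma first_ineq {k : ℝ} (hk : 0 < k) {f f' : ℝ → ℝ} (hf : ∀ x, HasDerivAt f (f' x) x)
    (hf' : Continuous f') {b : ℝ} (hb : 0 < b) :
    ∫ x in 0..b, x ^ k * f x ^ 2 ≤ b ^ (k + 1) / (k + 1) * f b ^ 2 +
      b / (k + 1) * ((∫ x in 0..b, x ^ k * f x ^ 2) + ∫ x in 0..b, x ^ k * f' x ^ 2) := by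
  have hfc : Continuous f := continuous_iff_continuousAt.2 fun x => (hf x).continuousAt
  have hkc : Continuous fun x : ℝ => x ^ k := Real.continuous_rpow_const hk.le
  have hkc1 : Continuous fun x : ℝ => x ^ (k+1) := Real.continuous_rpow_const (by linarith)
  have hk1 : 0 < k + 1 := by linarith
  have h1 : ∫ x in 0..b, (x ^ k * f x ^ 2 + x ^ (k+1) / (k+1) * (2 * f x * f' x)) =
      b ^ (k+1) / (k+1) * f b ^ 2 - (0:ℝ) ^ (k+1) / (k+1) * f 0 ^ 2 := by
    apply integral_eq_sub_of_hasDerivAt (f := fun x => x ^ (k+1) / (k+1) * f x ^ 2)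
    · intro x hx
      have hd1 : HasDerivAt (fun x : ℝ => x ^ (k+1) / (k+1)) (x ^ k) x := by
        have := (Real.hasDerivAt_rpow_const (x := x) (p := k + 1) (Or.inr (by linarith))).div_const (k+1)
        convert! this using 1
        rw [add_sub_cancel_right]
        field_simp
      have hd2 : HasDerivAt (fun x => f x ^ 2) (2 * f x * f' x) x := by
        have := (hf x).fun_pow 2
        simpa using this
      exact hd1.mul hd2
    · exact (Continuous.intervalIntegrable (by fun_prop) _ _)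
  rw [Real.zero_rpow (by linarith)] at h1
  have h2 : ∫ x in 0..b, (x ^ k * f x ^ 2 + x ^ (k+1) / (k+1) * (2 * f x * f' x)) =
      (∫ x in 0..b, x ^ k * f x ^ 2) + ∫ x in 0..b, x ^ (k+1) / (k+1) * (2 * f x * f' x) := by
    rw [intervalIntegral.integral_add]
    · exact (Continuous.intervalIntegrable (by fun_prop) _ _)
    · exact (Continuous.intervalIntegrable (by fun_prop) _ _)
  have h3 : -(b / (k + 1) * ((∫ x in 0..b, x ^ k * f x ^ 2) + ∫ x in 0..b, x ^ k * f' x ^ 2)) ≤
      ∫ x in 0..b, x ^ (k+1) / (k+1) * (2 * f x * f' x) := by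
    rw [← intervalIntegral.integral_add, ← intervalIntegral.integral_const_mul, ← intervalIntegral.integral_neg]
    · apply integral_mono_on hb.le
      · exact (Continuous.intervalIntegrable (by fun_prop) _ _)
      · exact (Continuous.intervalIntegrable (by fun_prop) _ _)
      · intro x hx
        have hx0 : 0 ≤ x := hx.1
        have e1 : x ^ (k+1) = x ^ k * x := Real.rpow_add_one' hx0 (by linarith)
        rw [e1]
        have hxk : 0 ≤ x ^ k := Real.rpow_nonneg hx0 _
        have e2 : x * (2 * f x * f' x) ≥ - (b * (f x ^ 2 + f' x ^ 2)) := by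
          have : x * (2 * f x * f' x) ≥ - (x * (f x ^ 2 + f' x ^ 2)) := by
            nlinarith [mul_nonneg hx0 (sq_nonneg (f x + f' x))]
          have h' : x * (f x ^ 2 + f' x ^ 2) ≤ b * (f x ^ 2 + f' x ^ 2) :=
            mul_le_mul_of_nonneg_right hx.2 (by positivity)
          linarith
        have e3 : x ^ k / (k+1) * (x * (2 * f x * f' x)) ≥ x ^ k / (k+1) * (- (b * (f x ^ 2 + f' x ^ 2))) :=
          mul_le_mul_of_nonneg_left e2 (by positivity)
        calc -(b / (k + 1) * (x ^ k * f x ^ 2 + x ^ k * f' x ^ 2))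
            = x ^ k / (k+1) * (- (b * (f x ^ 2 + f' x ^ 2))) := by ring
          _ ≤ x ^ k / (k+1) * (x * (2 * f x * f' x)) := e3
          _ = x ^ k * x / (k + 1) * (2 * f x * f' x) := by ring
    · exact (Continuous.intervalIntegrable (by fun_prop) _ _)
    · exact (Continuous.intervalIntegrable (by fun_prop) _ _)
  rw [h2] at h1
  simp only [zero_div, zero_mul, sub_zero] at h1
  linarith

/-- Weighted gap inequality. -/
lemma wgap_ineq {k : ℝ} (hk : 0 < k) {f f' : ℝ → ℝ} (hf : ∀ x, HasDerivAt f (f' x) x)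
    (hf' : Continuous f') {a b : ℝ} (ha : 0 < a) (hab : a ≤ b) {κ : ℝ} (hκ : b - a ≤ κ)
    (hr : b ^ k ≤ 3 / 2 * a ^ k) :
    ∫ x in a..b, x ^ k * f x ^ 2 ≤ 2 * κ * b ^ k * f a ^ 2 +
      6 * κ ^ 2 * ∫ x in a..b, x ^ k * f' x ^ 2 := by
  have hfc : Continuous f := continuous_iff_continuousAt.2 fun x => (hf x).continuousAt
  have hkc : Continuous fun x : ℝ => x ^ k := Real.continuous_rpow_const hk.le
  have hb : 0 < b := by linarith
  have hbk : 0 < b ^ k := Real.rpow_pos_of_pos hb _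
  have hak : 0 < a ^ k := Real.rpow_pos_of_pos ha _
  have h1 : ∫ x in a..b, x ^ k * f x ^ 2 ≤ ∫ x in a..b, b ^ k * f x ^ 2 := by
    apply integral_mono_on hab
    · exact (Continuous.intervalIntegrable (by fun_prop) _ _)
    · exact (Continuous.intervalIntegrable (by fun_prop) _ _)
    · intro x hx
      apply mul_le_mul_of_nonneg_right _ (sq_nonneg _)
      exact Real.rpow_le_rpow (by linarith [hx.1]) hx.2 hk.le
  have h2 : a ^ k * ∫ x in a..b, f' x ^ 2 ≤ ∫ x in a..b, x ^ k * f' x ^ 2 := by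
    rw [← intervalIntegral.integral_const_mul]
    apply integral_mono_on hab
    · exact (Continuous.intervalIntegrable (by fun_prop) _ _)
    · exact (Continuous.intervalIntegrable (by fun_prop) _ _)
    · intro x hx
      apply mul_le_mul_of_nonneg_right _ (sq_nonneg _)
      exact Real.rpow_le_rpow (by linarith [hx.1]) hx.1 hk.le
  have h3 := gap_ineq hf hf' hab
  have hI1 : 0 ≤ ∫ x in a..b, f' x ^ 2 := integral_nonneg hab fun x _ => sq_nonneg _
  rw [intervalIntegral.integral_const_mul] at h1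
  have hd : 0 ≤ b - a := by linarith
  have hκ0 : 0 ≤ κ := by linarith
  have h4 : b ^ k * ∫ x in a..b, f x ^ 2 ≤
      b ^ k * (2 * κ * f a ^ 2 + 4 * κ ^ 2 * ∫ x in a..b, f' x ^ 2) := by
    apply mul_le_mul_of_nonneg_left _ hbk.le
    refine h3.trans ?_
    gcongr
  have h5 : b ^ k * (4 * κ ^ 2 * ∫ x in a..b, f' x ^ 2) ≤
      6 * κ ^ 2 * ∫ x in a..b, x ^ k * f' x ^ 2 := by
    calc b ^ k * (4 * κ ^ 2 * ∫ x in a..b, f' x ^ 2)
        ≤ (3 / 2 * a ^ k) * (4 * κ ^ 2 * ∫ x in a..b, f' x ^ 2) := by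
          apply mul_le_mul_of_nonneg_right hr (by positivity)
      _ = 6 * κ ^ 2 * (a ^ k * ∫ x in a..b, f' x ^ 2) := by ring
      _ ≤ _ := by gcongr
  nlinarith

/-- The nodes. -/
noncomputable def node (k : ℝ) (n : ℕ) : ℝ := 1 / 10 * ((n : ℝ) + 2) ^ (1 / k)

lemma node_pos {k : ℝ} (n : ℕ) : 0 < node k n := by
  unfold node; positivity

lemma node_rpow {k : ℝ} (hk : 0 < k) (n : ℕ) :
    node k n ^ k = (1 / 10 : ℝ) ^ k * ((n : ℝ) + 2) := by
  unfold node
  rw [Real.mul_rpow (by norm_num) (by positivity), ← Real.rpow_mul (by positivity)]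
  rw [one_div_mul_cancel hk.ne', Real.rpow_one]

lemma node_succ_rpow {k : ℝ} (hk : 0 < k) (n : ℕ) :
    node k (n+1) ^ k = (1 / 10 : ℝ) ^ k * ((n : ℝ) + 3) := by
  rw [node_rpow hk]; push_cast; ring

lemma node_mono {k : ℝ} (hk : 0 < k) (n : ℕ) : node k n ≤ node k (n+1) := by
  unfold node
  have : ((n:ℝ) + 2) ^ (1 / k) ≤ (((n+1 : ℕ) : ℝ) + 2) ^ (1 / k) := by
    apply Real.rpow_le_rpow (by positivity) _ (by positivity)
    push_cast; linarith
  linarith

lemma node_gap {k : ℝ} (hk : 1 ≤ k) (n : ℕ) : node k (n+1) - node k n ≤ 1 / 10 := by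
  unfold node
  have h : (((n+1 : ℕ) : ℝ) + 2) ^ (1 / k) ≤ ((n:ℝ) + 2) ^ (1 / k) + (1:ℝ) ^ (1 / k) := by
    have := Real.rpow_add_le_add_rpow (a := (n:ℝ) + 2) (b := 1) (p := 1 / k) (by positivity)
      (by norm_num) (by positivity) (by rw [div_le_one (by linarith)]; exact hk)
    convert! this using 2
    push_cast; ring
  rw [Real.one_rpow] at h
  linarith

lemma node_zero_le {k : ℝ} (hk : 1 ≤ k) : node k 0 ≤ 1 / 5 := by
  unfold node
  have h : (((0 : ℕ) : ℝ) + 2) ^ (1 / k) ≤ (2:ℝ) ^ (1:ℝ) := by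
    rw [Nat.cast_zero, zero_add]
    apply Real.rpow_le_rpow_of_exponent_le (by norm_num)
    rw [div_le_one (by linarith)]; exact hk
  rw [Real.rpow_one] at h
  linarith

lemma le_node_zero {k : ℝ} (hk : 0 < k) : 1 / 10 ≤ node k 0 := by
  unfold node
  have h : (1:ℝ) ≤ (((0 : ℕ) : ℝ) + 2) ^ (1 / k) := by
    rw [Nat.cast_zero, zero_add]
    exact Real.one_le_rpow (by norm_num) (by positivity)
  linarith

lemma tendsto_node {k : ℝ} (hk : 0 < k) :
    Filter.Tendsto (node k) Filter.atTop Filter.atTop := by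
  unfold node
  apply Filter.Tendsto.const_mul_atTop (by norm_num)
  apply (tendsto_rpow_atTop (y := 1 / k) (by positivity)).comp
  exact Filter.tendsto_atTop_add_const_right _ _ tendsto_natCast_atTop_atTop

/-- Partial sum estimate. -/
lemma partial_ineq {k : ℝ} (hk : 1 ≤ k) {f f' : ℝ → ℝ} (hf : ∀ x, HasDerivAt f (f' x) x)
    (hf' : Continuous f') (N : ℕ) :
    ∫ x in 0..node k N, x ^ k * f x ^ 2 ≤
      1 / 10 * ((∫ x in 0..node k 0, x ^ k * f x ^ 2) + ∫ x in 0..node k 0, x ^ k * f' x ^ 2)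
      + 1 / 10 * f (node k 0) ^ 2
      + ∑ n ∈ Finset.range N, (((n:ℝ) + 3) * f (node k n) ^ 2)
      + 6 / 100 * ∫ x in node k 0..node k N, x ^ k * f' x ^ 2 := by
  have hk0 : 0 < k := by linarith
  have hfc : Continuous f := continuous_iff_continuousAt.2 fun x => (hf x).continuousAt
  have hkc : Continuous fun x : ℝ => x ^ k := Real.continuous_rpow_const hk0.le
  have hint : ∀ a b : ℝ, IntervalIntegrable (fun x => x ^ k * f x ^ 2) volume a b :=
    fun a b => Continuous.intervalIntegrable (by fun_prop) _ _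
  have hint' : ∀ a b : ℝ, IntervalIntegrable (fun x => x ^ k * f' x ^ 2) volume a b :=
    fun a b => Continuous.intervalIntegrable (by fun_prop) _ _
  rw [← integral_add_adjacent_intervals (hint 0 (node k 0)) (hint (node k 0) (node k N))]
  rw [← sum_integral_adjacent_intervals (a := node k) (n := N) (fun n _ => hint _ _)]
  rw [← sum_integral_adjacent_intervals (a := node k) (n := N) (fun n _ => hint' _ _)]
  have h1 := first_ineq hk0 hf hf' (node_pos (k := k) 0)
  have h2 : ∀ n ∈ Finset.range N, ∫ x in node k n..node k (n+1), x ^ k * f x ^ 2 ≤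
      ((n:ℝ) + 3) * f (node k n) ^ 2 + 6 / 100 * ∫ x in node k n..node k (n+1), x ^ k * f' x ^ 2 := by
    intro n _
    have hr : node k (n+1) ^ k ≤ 3 / 2 * node k n ^ k := by
      rw [node_succ_rpow hk0, node_rpow hk0]
      have : (0:ℝ) < (1/10 : ℝ) ^ k := by positivity
      nlinarith
    have := wgap_ineq hk0 hf hf' (node_pos (k := k) n) (node_mono hk0 n) (node_gap hk n) hr
    refine this.trans ?_
    have e : node k (n+1) ^ k ≤ (n:ℝ) + 3 := by
      rw [node_succ_rpow hk0]
      have : (1/10 : ℝ) ^ k ≤ 1 := Real.rpow_le_one (by norm_num) (by norm_num) hk0.le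
      have h0 : (0:ℝ) ≤ n := Nat.cast_nonneg n
      nlinarith
    have e0 : 0 ≤ node k (n+1) ^ k := (Real.rpow_pos_of_pos (node_pos _) _).le
    have e2 : 2 * (1 / 10) * node k (n+1) ^ k * f (node k n) ^ 2 ≤ ((n:ℝ) + 3) * f (node k n) ^ 2 := by
      apply mul_le_mul_of_nonneg_right _ (sq_nonneg _)
      linarith
    have e3 : (6:ℝ) * (1/10)^2 = 6 / 100 := by norm_num
    rw [e3]
    linarith
  have h3 := Finset.sum_le_sum h2
  rw [Finset.sum_add_distrib, ← Finset.mul_sum] at h3
  have hb : node k 0 / (k+1) ≤ 1 / 10 := by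
    rw [div_le_iff₀ (by linarith)]
    have := node_zero_le hk
    linarith
  have hb2 : node k 0 ^ (k+1) / (k+1) ≤ 1 / 10 := by
    have : node k 0 ^ (k+1) = node k 0 ^ k * node k 0 := Real.rpow_add_one' (node_pos _).le (by linarith)
    rw [this, mul_div_assoc]
    have h' : node k 0 ^ k ≤ 1 := Real.rpow_le_one (node_pos _).le (by linarith [node_zero_le hk]) hk0.le
    have h'' : 0 ≤ node k 0 ^ k := (Real.rpow_pos_of_pos (node_pos _) _).le
    have h3 : 0 ≤ node k 0 / (k+1) := by
      have := node_pos (k := k) 0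
      positivity
    nlinarith
  have i0 : 0 ≤ ∫ x in 0..node k 0, x ^ k * f x ^ 2 :=
    integral_nonneg (node_pos _).le fun x hx => mul_nonneg (Real.rpow_nonneg hx.1 _) (sq_nonneg _)
  have i1 : 0 ≤ ∫ x in 0..node k 0, x ^ k * f' x ^ 2 :=
    integral_nonneg (node_pos _).le fun x hx => mul_nonneg (Real.rpow_nonneg hx.1 _) (sq_nonneg _)
  have h4 : node k 0 / (k+1) * ((∫ x in 0..node k 0, x ^ k * f x ^ 2) + ∫ x in 0..node k 0, x ^ k * f' x ^ 2)
      ≤ 1 / 10 * ((∫ x in 0..node k 0, x ^ k * f x ^ 2) + ∫ x in 0..node k 0, x ^ k * f' x ^ 2) :=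
    mul_le_mul_of_nonneg_right hb (by linarith)
  have h5 : node k 0 ^ (k+1) / (k+1) * f (node k 0) ^ 2 ≤ 1 / 10 * f (node k 0) ^ 2 :=
    mul_le_mul_of_nonneg_right hb2 (sq_nonneg _)
  linarith

/-- Main sampling inequality. -/
theorem sampling {k : ℝ} (hk : 1 ≤ k) {f f' : ℝ → ℝ} (hf : ∀ x, HasDerivAt f (f' x) x)
    (hf' : Continuous f')
    (hi : IntegrableOn (fun x => x ^ k * f x ^ 2) (Ioi 0))
    (hi' : IntegrableOn (fun x => x ^ k * f' x ^ 2) (Ioi 0))
    (heq : ∫ x in Ioi 0, x ^ k * f' x ^ 2 = ∫ x in Ioi 0, x ^ k * f x ^ 2)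
    (hs : Summable fun n : ℕ => ((n:ℝ) + 3) * f (node k n) ^ 2) :
    f (1 / 10) ^ 2 ≤ (1 + 4 * (10:ℝ) ^ k) * ∑' n : ℕ, ((n:ℝ) + 3) * f (node k n) ^ 2 := by
  have hk0 : 0 < k := by linarith
  set E := ∫ x in Ioi 0, x ^ k * f x ^ 2 with hE
  set S := ∑' n : ℕ, ((n:ℝ) + 3) * f (node k n) ^ 2 with hS
  have hfc : Continuous f := continuous_iff_continuousAt.2 fun x => (hf x).continuousAt
  have hkc : Continuous fun x : ℝ => x ^ k := Real.continuous_rpow_const hk0.le
  have hint : ∀ a b : ℝ, IntervalIntegrable (fun x => x ^ k * f x ^ 2) volume a b :=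
    fun a b => Continuous.intervalIntegrable (by fun_prop) _ _
  have hint' : ∀ a b : ℝ, IntervalIntegrable (fun x => x ^ k * f' x ^ 2) volume a b :=
    fun a b => Continuous.intervalIntegrable (by fun_prop) _ _
  have n0 : ∀ g : ℝ → ℝ, ∀ x ∈ Ioi (0:ℝ), 0 ≤ x ^ k * g x ^ 2 := fun g x hx =>
    mul_nonneg (Real.rpow_nonneg (le_of_lt hx) _) (sq_nonneg _)
  have le_full : ∀ g : ℝ → ℝ, IntegrableOn (fun x => x ^ k * g x ^ 2) (Ioi 0) →
      ∀ a b : ℝ, 0 ≤ a → a ≤ b → ∫ x in a..b, x ^ k * g x ^ 2 ≤ ∫ x in Ioi 0, x ^ k * g x ^ 2 := by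
    intro g hg a b ha hab
    rw [intervalIntegral.integral_of_le hab]
    apply setIntegral_mono_set hg
    · filter_upwards [self_mem_ae_restrict measurableSet_Ioi] with x hx using n0 g x hx
    · apply Filter.Eventually.of_forall
      intro x hx
      exact lt_of_le_of_lt ha hx.1
  have hS0 : ∀ n : ℕ, 0 ≤ ((n:ℝ) + 3) * f (node k n) ^ 2 := fun n => by positivity
  have hf0 : f (node k 0) ^ 2 ≤ S := by
    have := hs.le_tsum 0 (fun n _ => hS0 n)
    simp only [Nat.cast_zero, zero_add] at this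
    have h' : 0 ≤ f (node k 0) ^ 2 := sq_nonneg _
    linarith
  have hSnn : 0 ≤ S := tsum_nonneg hS0
  have hpart : ∀ N : ℕ, ∫ x in 0..node k N, x ^ k * f x ^ 2 ≤ 26 / 100 * E + 11 / 10 * S := by
    intro N
    have h := partial_ineq hk hf hf' N
    have a1 := le_full f hi 0 (node k 0) le_rfl (node_pos _).le
    have a2 := le_full f' hi' 0 (node k 0) le_rfl (node_pos _).le
    have hmono : node k 0 ≤ node k N := monotone_nat_of_le_succ (node_mono hk0) (Nat.zero_le N)
    have a3 := le_full f' hi' (node k 0) (node k N) (node_pos _).le hmono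
    have a4 : ∑ n ∈ Finset.range N, (((n:ℝ) + 3) * f (node k n) ^ 2) ≤ S :=
      hs.sum_le_tsum _ (fun n _ => hS0 n)
    rw [heq] at a2 a3
    linarith
  have hlim : Filter.Tendsto (fun N => ∫ x in 0..node k N, x ^ k * f x ^ 2) Filter.atTop (nhds E) :=
    intervalIntegral_tendsto_integral_Ioi 0 hi (tendsto_node hk0)
  have hE2 : E ≤ 26 / 100 * E + 11 / 10 * S := le_of_tendsto' hlim hpart
  have hE3 : E ≤ 2 * S := by
    have : 0 ≤ E := setIntegral_nonneg measurableSet_Ioi (n0 f)
    linarith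
  -- value at 1/10
  have h10 : f (node k 0) ^ 2 - f (1/10) ^ 2 = ∫ x in (1/10)..node k 0, 2 * f x * f' x := by
    symm
    apply integral_eq_sub_of_hasDerivAt (f := fun y => f y ^ 2)
    · intro y _
      have := (hf y).fun_pow 2
      simpa using this
    · exact (Continuous.intervalIntegrable (by fun_prop) _ _)
  have h11 : -((10:ℝ) ^ k * ((∫ x in (1/10)..node k 0, x ^ k * f x ^ 2) +
      ∫ x in (1/10)..node k 0, x ^ k * f' x ^ 2)) ≤ ∫ x in (1/10)..node k 0, 2 * f x * f' x := by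
    rw [← intervalIntegral.integral_add, ← intervalIntegral.integral_const_mul,
      ← intervalIntegral.integral_neg]
    · apply integral_mono_on (le_node_zero hk0)
      · exact (Continuous.intervalIntegrable (by fun_prop) _ _)
      · exact (Continuous.intervalIntegrable (by fun_prop) _ _)
      · intro x hx
        have hx1 : (1:ℝ) ≤ 10 ^ k * x ^ k := by
          rw [← Real.mul_rpow (by norm_num) (by linarith [hx.1])]
          apply Real.one_le_rpow _ hk0.le
          linarith [hx.1]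
        have : f x ^ 2 + f' x ^ 2 ≤ (10 ^ k * x ^ k) * (f x ^ 2 + f' x ^ 2) := by
          have h0 : 0 ≤ f x ^ 2 + f' x ^ 2 := by positivity
          nlinarith
        nlinarith [sq_nonneg (f x + f' x)]
    · exact (Continuous.intervalIntegrable (by fun_prop) _ _)
    · exact (Continuous.intervalIntegrable (by fun_prop) _ _)
  have a1 := le_full f hi (1/10) (node k 0) (by norm_num) (le_node_zero hk0)
  have a2 := le_full f' hi' (1/10) (node k 0) (by norm_num) (le_node_zero hk0)
  rw [heq] at a2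
  have h10k : 0 < (10:ℝ) ^ k := by positivity
  have h12 : (10:ℝ) ^ k * ((∫ x in (1/10)..node k 0, x ^ k * f x ^ 2) +
      ∫ x in (1/10)..node k 0, x ^ k * f' x ^ 2) ≤ (10:ℝ) ^ k * (4 * S) := by
    apply mul_le_mul_of_nonneg_left _ h10k.le
    linarith
  nlinarith

end H336Sel
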