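import Pool.Agent.H336Sel.Relation

/-!
# The theta series and its Mellin transform
-/

open MeasureTheory Set Filter Topology Complex

namespace H336Sel

/-- Frequencies. -/
noncomputable def frq (k : ℝ) (n : ℕ) : ℝ := 1 / 10 * (n : ℝ) ^ (1 / k)

lemma frq_one (k : ℝ) : frq k 1 = 1 / 10 := by
  unfold frq; simp

lemma frq_add_two (k : ℝ) (n : ℕ) : frq k (n + 2) = node k n := by
  unfold frq node; push_cast; rfl

lemma frq_pos {k : ℝ} {n : ℕ} (hn : n ≠ 0) : 0 < frq k n := by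
  unfold frq
  have : (0:ℝ) < n := by exact_mod_cast Nat.pos_of_ne_zero hn
  positivity

lemma frq_ge {k : ℝ} (hk : 0 < k) {n : ℕ} (hn : n ≠ 0) : 1 / 10 ≤ frq k n := by
  unfold frq
  have h1 : (1:ℝ) ≤ n := by exact_mod_cast Nat.one_le_iff_ne_zero.2 hn
  have : (1:ℝ) ≤ (n:ℝ) ^ (1/k) := Real.one_le_rpow h1 (by positivity)
  linarith

/-- The package of data: real coefficients with a self-dual theta series. -/
structure Data (k : ℝ) where
  a : ℕ → ℝ
  a0 : a 0 = 0
  a1 : a 1 = -1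
  hl : ∀ σ : ℝ, 1 < σ → Summable fun n : ℕ => |a n| / (n:ℝ) ^ σ
  hs : ∀ u : ℝ, 0 < u → Summable fun n : ℕ => |a n| * Real.exp (-(u * frq k n))
  rel : ∀ u : ℝ, 0 < u → HasSum (fun n : ℕ => a n * G k u (frq k n)) 0

/-- Existence of the data. -/
theorem exists_data {k : ℝ} (hk : 1 ≤ k) : Nonempty (Data k) := by
  have hk0 : 0 < k := by linarith
  obtain ⟨b, hb, hrel⟩ := exists_relation hk
  let a : ℕ → ℝ := fun n => match n with
    | 0 => 0
    | 1 => -1
    | (n+2) => b n * Real.sqrt ((n:ℝ)+3)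
  have ha2 : ∀ n, a (n+2) = b n * Real.sqrt ((n:ℝ)+3) := fun n => rfl
  -- b is bounded
  have hbb : ∀ n, |b n| ≤ 1 + ∑' n, b n ^ 2 := by
    intro n
    have h1 : b n ^ 2 ≤ ∑' n, b n ^ 2 := hb.le_tsum n (fun m _ => sq_nonneg _)
    have h2 : |b n| ≤ 1 + b n ^ 2 := by
      rw [← sq_abs]; nlinarith [abs_nonneg (b n), sq_nonneg (|b n| - 1)]
    linarith
  set B := 1 + ∑' n, b n ^ 2
  have hB : 0 ≤ B := le_trans (abs_nonneg _) (hbb 0)
  refine ⟨⟨a, rfl, rfl, ?_, ?_, ?_⟩⟩
  · intro σ hσ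
    rw [← summable_nat_add_iff 2]
    have h1 : Summable fun n : ℕ => ((n:ℝ)+2) ^ (1 - 2 * σ) := by
      have : Summable fun n : ℕ => ((n + 2 : ℕ):ℝ) ^ (1 - 2 * σ) := by
        apply (summable_nat_add_iff (f := fun n : ℕ => (n:ℝ) ^ (1 - 2*σ)) 2).2
        exact Real.summable_nat_rpow.2 (by linarith)
      refine this.congr fun n => by push_cast; rfl
    refine Summable.of_nonneg_of_le (fun n => by positivity) ?_ (hb.add (h1.mul_left 2))
    intro n
    rw [ha2, abs_mul, abs_of_nonneg (Real.sqrt_nonneg _)]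
    have hx : (0:ℝ) < (n:ℝ) + 2 := by positivity
    have e0 : (((n + 2 : ℕ)):ℝ) = (n:ℝ) + 2 := by push_cast; ring
    rw [e0]
    have hxs : 0 < ((n:ℝ)+2) ^ σ := Real.rpow_pos_of_pos hx _
    set w := Real.sqrt ((n:ℝ)+3) / ((n:ℝ)+2) ^ σ with hw
    have e1 : |b n| * Real.sqrt ((n:ℝ)+3) / ((n:ℝ)+2) ^ σ = |b n| * w := by rw [hw]; ring
    rw [e1]
    have e2 : w ^ 2 ≤ 2 * ((n:ℝ)+2) ^ (1 - 2 * σ) := by
      rw [hw, div_pow, Real.sq_sqrt (by positivity)]
      have : (((n:ℝ)+2) ^ σ) ^ 2 = ((n:ℝ)+2) ^ (2 * σ) := by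
        rw [← Real.rpow_natCast, ← Real.rpow_mul hx.le]
        congr 1; push_cast; ring
      rw [this, Real.rpow_sub hx, Real.rpow_one]
      have h3 : 0 < ((n:ℝ)+2) ^ (2*σ) := Real.rpow_pos_of_pos hx _
      rw [← mul_div_assoc]
      apply div_le_div_of_nonneg_right _ h3.le
      have : (0:ℝ) ≤ n := Nat.cast_nonneg n
      linarith
    have e3 : |b n| * w ≤ |b n| ^ 2 + w ^ 2 := by nlinarith [sq_nonneg (|b n| - w), sq_nonneg (|b n|), sq_nonneg w]
    rw [sq_abs] at e3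
    linarith
  · intro u hu
    rw [← summable_nat_add_iff 2]
    refine Summable.of_nonneg_of_le (fun n => by positivity) ?_ ((summable_exp_node hk0 hu).mul_left B)
    intro n
    rw [ha2, frq_add_two, abs_mul, abs_of_nonneg (Real.sqrt_nonneg _)]
    have h1 : Real.sqrt ((n:ℝ)+3) ≤ ((n:ℝ)+3)^2 := by
      have h0 : (0:ℝ) ≤ n := Nat.cast_nonneg n
      rw [Real.sqrt_le_left (by positivity)]
      nlinarith [sq_nonneg ((n:ℝ)+3), mul_nonneg h0 (sq_nonneg ((n:ℝ)+3)), mul_nonneg (mul_nonneg h0 h0) (sq_nonneg ((n:ℝ)+3))]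
    have h2 : |b n| * Real.sqrt ((n:ℝ)+3) ≤ B * ((n:ℝ)+3)^2 :=
      mul_le_mul (hbb n) h1 (Real.sqrt_nonneg _) hB
    calc |b n| * Real.sqrt ((n:ℝ)+3) * Real.exp (-(u * node k n))
        ≤ B * ((n:ℝ)+3)^2 * Real.exp (-(u * node k n)) := by gcongr
      _ = _ := by ring
  · intro u hu
    have h := hrel u hu
    have h2 : HasSum (fun n : ℕ => a (n+2) * G k u (frq k (n+2))) (G k u (1/10)) := by
      refine h.congr_fun fun n => ?_
      rw [ha2, frq_add_two]
    have h3 := (hasSum_nat_add_iff (f := fun n : ℕ => a n * G k u (frq k n)) 2).1 h2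
    simp only [Finset.sum_range_succ, Finset.sum_range_zero, zero_add] at h3
    have h4 : a 0 = 0 := rfl
    have h5 : a 1 = -1 := rfl
    rw [h4, h5, frq_one] at h3
    convert! h3 using 1
    ring

variable {k : ℝ} (D : Data k)

/-- Theta series. -/
noncomputable def Data.Ψ (t : ℝ) : ℝ := ∑' n : ℕ, D.a n * Real.exp (-(t * frq k n))

lemma Data.hasSum_Ψ {t : ℝ} (ht : 0 < t) :
    HasSum (fun n : ℕ => D.a n * Real.exp (-(t * frq k n))) (D.Ψ t) := by
  apply Summable.hasSum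
  apply Summable.of_norm
  refine (D.hs t ht).congr fun n => ?_
  rw [Real.norm_eq_abs, abs_mul, abs_of_pos (Real.exp_pos _)]

lemma Data.feq {t : ℝ} (ht : 0 < t) : D.Ψ (1 / t) = - (t ^ k * D.Ψ t) := by
  have h1 := D.hasSum_Ψ ht
  have h2 := (D.hasSum_Ψ (inv_pos.2 ht)).mul_left (t ^ (-k))
  have h3 := h1.add h2
  have h4 := D.rel t ht
  have h5 : (fun n : ℕ => D.a n * G k t (frq k n)) = fun n : ℕ =>
      D.a n * Real.exp (-(t * frq k n)) + t ^ (-k) * (D.a n * Real.exp (-(t⁻¹ * frq k n))) := by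
    funext n
    unfold G H
    ring
  rw [h5] at h4
  have h6 := h3.unique h4
  rw [one_div]
  have h7 : t ^ k * t ^ (-k) = 1 := by rw [← Real.rpow_add ht]; simp
  calc D.Ψ t⁻¹ = (t ^ k * t ^ (-k)) * D.Ψ t⁻¹ := by rw [h7, one_mul]
    _ = t ^ k * (t ^ (-k) * D.Ψ t⁻¹) := by ring
    _ = t ^ k * (- D.Ψ t) := by rw [show t ^ (-k) * D.Ψ t⁻¹ = - D.Ψ t by linarith]
    _ = _ := by ring

lemma Data.continuousOn : ContinuousOn D.Ψ (Ioi 0) := by
  intro t ht
  have ht : 0 < t := ht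
  apply ContinuousAt.continuousWithinAt
  have : ContinuousOn D.Ψ (Ioi (t/2)) := by
    unfold Data.Ψ
    apply continuousOn_tsum (u := fun n => |D.a n| * Real.exp (-(t/2 * frq k n)))
    · intro n
      fun_prop
    · exact D.hs _ (by positivity)
    · intro n x hx
      rw [Real.norm_eq_abs, abs_mul, abs_of_pos (Real.exp_pos _)]
      apply mul_le_mul_of_nonneg_left _ (abs_nonneg _)
      apply Real.exp_le_exp.2
      have hx : t / 2 < x := hx
      have : 0 ≤ frq k n := by unfold frq; positivity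
      nlinarith
  exact this.continuousAt (Ioi_mem_nhds (by linarith))

lemma Data.bound (hk : 0 < k) {t : ℝ} (ht : 1 ≤ t) :
    |D.Ψ t| ≤ (Real.exp (1/10) * ∑' n, |D.a n| * Real.exp (-(1 * frq k n))) * Real.exp (-(1/10) * t) := by
  have h1 := D.hasSum_Ψ (by linarith : 0 < t)
  have h2 := (D.hs 1 one_pos).mul_left (Real.exp (1/10) * Real.exp (-(1/10) * t))
  have h3 : ∀ n, ‖D.a n * Real.exp (-(t * frq k n))‖ ≤
      Real.exp (1/10) * Real.exp (-(1/10) * t) * (|D.a n| * Real.exp (-(1 * frq k n))) := by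
    intro n
    rw [Real.norm_eq_abs, abs_mul, abs_of_pos (Real.exp_pos _)]
    rcases eq_or_ne n 0 with rfl | hn
    · simp [D.a0]
    have h4 := frq_ge hk hn
    have h5 : Real.exp (-(t * frq k n)) ≤ Real.exp (1/10) * Real.exp (-(1/10) * t) * Real.exp (-(1 * frq k n)) := by
      rw [← Real.exp_add, ← Real.exp_add]
      apply Real.exp_le_exp.2
      nlinarith
    calc |D.a n| * Real.exp (-(t * frq k n)) ≤ |D.a n| * (Real.exp (1/10) * Real.exp (-(1/10) * t) * Real.exp (-(1 * frq k n))) := by gcongr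
      _ = _ := by ring
  have h6 := tsum_of_norm_bounded h2.hasSum h3
  rw [tsum_mul_left] at h6
  have h7 : ‖∑' n, D.a n * Real.exp (-(t * frq k n))‖ = |D.Ψ t| := rfl
  rw [h7] at h6
  linarith

lemma Data.isBigO (hk : 0 < k) (r : ℝ) :
    (fun t : ℝ => (D.Ψ t : ℂ)) =O[atTop] (fun t : ℝ => t ^ r) := by
  have h1 : (fun t : ℝ => (D.Ψ t : ℂ)) =O[atTop] (fun t : ℝ => Real.exp (-(1/10) * t)) := by
    apply Asymptotics.IsBigO.of_bound (Real.exp (1/10) * ∑' n, |D.a n| * Real.exp (-(1 * frq k n)))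
    filter_upwards [eventually_ge_atTop 1] with t ht
    rw [Complex.norm_real, Real.norm_eq_abs, Real.norm_of_nonneg (Real.exp_pos _).le]
    exact D.bound hk ht
  exact h1.trans (isLittleO_exp_neg_mul_rpow_atTop (by norm_num) r).isBigO

/-- The FE pair. -/
noncomputable def Data.pair (hk : 0 < k) : WeakFEPair ℂ where
  f := fun t => (D.Ψ t : ℂ)
  g := fun t => (D.Ψ t : ℂ)
  k := k
  ε := -1
  f₀ := 0
  g₀ := 0
  hf_int := (Complex.continuous_ofReal.comp_continuousOn D.continuousOn).locallyIntegrableOn measurableSet_Ioi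
  hg_int := (Complex.continuous_ofReal.comp_continuousOn D.continuousOn).locallyIntegrableOn measurableSet_Ioi
  hk := hk
  hε := by norm_num
  h_feq := by
    intro x hx
    rw [D.feq hx]
    push_cast
    simp
  hf_top := by
    intro r
    simpa using D.isBigO hk r
  hg_top := by
    intro r
    simpa using D.isBigO hk r

lemma Data.strong (hk : 0 < k) : IsStrongFEPair (D.pair hk) := ⟨rfl, rfl⟩

/-- Completed function. -/
noncomputable def Data.Λ (z : ℂ) : ℂ := mellin (fun t : ℝ => (D.Ψ t : ℂ)) z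

lemma Data.Λ_eq (hk : 0 < k) : (D.pair hk).Λ = D.Λ := (D.strong hk).Λ_eq

lemma Data.differentiable_Λ (hk : 0 < k) : Differentiable ℂ D.Λ := by
  rw [← D.Λ_eq hk]; exact (D.strong hk).differentiable_Λ

lemma Data.Λ_feq (hk : 0 < k) (z : ℂ) : D.Λ (k - z) = - D.Λ z := by
  have h1 := (D.pair hk).functional_equation z
  have h2 : (D.pair hk).symm.Λ = D.Λ := (D.strong hk).symm_Λ_eq
  rw [h2, D.Λ_eq hk] at h1
  have h3 : (D.pair hk).k = k := rfl
  have h4 : (D.pair hk).ε = -1 := rfl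
  rw [h3, h4] at h1
  simpa using h1

lemma Data.Λ_conj (z : ℂ) : D.Λ ((starRingEnd ℂ) z) = (starRingEnd ℂ) (D.Λ z) := by
  unfold Data.Λ mellin
  rw [← integral_conj]
  apply setIntegral_congr_fun measurableSet_Ioi
  intro t ht
  have ht : 0 < t := ht
  simp only [smul_eq_mul, map_mul, Complex.conj_ofReal]
  congr 1
  have h := Complex.cpow_conj (t:ℂ) (z - 1)
    (by rw [Complex.arg_ofReal_of_nonneg ht.le]; exact Real.pi_pos.ne)
  rw [Complex.conj_ofReal, map_sub, map_one] at h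
  exact h

lemma Data.Λ_sum (hk : 0 < k) {z : ℂ} (hz : k < z.re) :
    HasSum (fun n : ℕ => Complex.Gamma z * (D.a n : ℂ) / ((frq k n : ℝ) : ℂ) ^ z) (D.Λ z) := by
  apply hasSum_mellin
  · intro n
    rcases eq_or_ne n 0 with rfl | hn
    · left; simp [D.a0]
    · right; exact frq_pos hn
  · linarith
  · intro t ht
    have := D.hasSum_Ψ (t := t) ht
    have h2 := this.mapL Complex.ofRealCLM
    simp only [Complex.ofRealCLM_apply] at h2
    convert! h2 using 2 with n
    push_cast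
    congr 2
    ring
  · have h1 := (D.hl (z.re / k) (by rw [lt_div_iff₀ hk]; linarith)).mul_left ((1/10:ℝ) ^ (-z.re))
    refine h1.congr fun n => ?_
    rw [Complex.norm_real, Real.norm_eq_abs]
    unfold frq
    rw [Real.mul_rpow (by norm_num) (by positivity), ← Real.rpow_mul (by positivity),
      Real.rpow_neg (by norm_num)]
    rw [show 1 / k * z.re = z.re / k by ring]
    field_simp

end H336Sel
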